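import Pool.Agent.Lib.MP_587a88_co.Main

/-! Odd dilations of the Promislow group, and pairs without unique products of every size. -/

set_option autoImplicit false
open Pointwise Finset

namespace Pool.Agent.Lib.MP_587a88_co.All

lemma two_exits {G : Type} [Group G] (tf : ∀ g : G, g ≠ 1 → ¬ IsOfFinOrder g) {X : Finset G}
    {p q : G} (h1 : 1 ∈ X) (hp : p ∈ X) (hq : q ∈ X) (hpq : p * q ≠ q * p) {g : G} (hg : g ≠ 1) :
    ∃ u ∈ X, ∃ v ∈ X, u ≠ v ∧ g * u ∉ X ∧ g * v ∉ X := by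
  classical
  by_contra hcon
  have ex : ∀ x ∈ X, ∃ n : ℕ, g ^ n * x ∈ X ∧ g * (g ^ n * x) ∉ X := fun x hx => by
    by_contra hn
    push Not at hn
    have all : ∀ n : ℕ, g ^ n * x ∈ X := fun n => by
      induction n with
      | zero => simpa using hx
      | succ n ih => rw [pow_succ', mul_assoc]; exact hn n ih
    have inj : Function.Injective fun n : ℕ => g ^ n * x := fun a b e =>
      injective_pow_iff_not_isOfFinOrder.2 (tf g hg) (mul_right_cancel e)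
    exact Set.infinite_of_injective_forall_mem inj (s := (X : Set G)) all X.finite_toSet
  obtain ⟨a, a1, a2⟩ := ex 1 h1
  have key : ∀ x ∈ X, ∃ z : ℤ, x = g ^ z := fun x hx => by
    obtain ⟨b, b1, b2⟩ := ex x hx
    have : g ^ a * 1 = g ^ b * x := by
      by_contra hne
      exact hcon ⟨_, a1, _, b1, hne, a2, b2⟩
    refine ⟨-b + a, ?_⟩
    rw [zpow_add, zpow_neg, zpow_natCast, zpow_natCast, eq_inv_mul_iff_mul_eq, ← this, mul_one]
  obtain ⟨z, rfl⟩ := key p hp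
  obtain ⟨w, rfl⟩ := key q hq
  exact hpq (zpow_mul_comm g z w)

lemma sg_odd_mul (m : ℕ) (x : ℤ) : sg ((2 * m + 1) * x) = sg x := by
  have : (2 * m + 1) * x = x + 2 * (m * x) := by ring
  unfold sg
  rw [this, Int.add_mul_emod_self_left]

/-- dilation by the odd number `2 m + 1` -/
def dil (m : ℕ) : PG →* PG where
  toFun v := ⟨(2 * m + 1) * v.a, (2 * m + 1) * v.b, (2 * m + 1) * v.c, by
    have := v.h
    have e : (2 * m + 1) * v.a + (2 * m + 1) * v.b + (2 * m + 1) * v.c =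
      v.a + v.b + v.c + 2 * (m * (v.a + v.b + v.c)) := by ring
    rw [e, Int.add_mul_emod_self_left, this]⟩
  map_one' := by ext <;> simp
  map_mul' v w := by ext <;> simp only [mul_a, mul_b, mul_c, sg_odd_mul] <;> ring

lemma dil_a (m : ℕ) (v : PG) : (dil m v).a = (2 * m + 1) * v.a := rfl
lemma dil_b (m : ℕ) (v : PG) : (dil m v).b = (2 * m + 1) * v.b := rfl
lemma dil_c (m : ℕ) (v : PG) : (dil m v).c = (2 * m + 1) * v.c := rfl

lemma dil_inj (m : ℕ) : Function.Injective (dil m) := fun v w h => by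
  have h0 : (2 * (m : ℤ) + 1) ≠ 0 := by positivity
  exact PG.ext (mul_left_cancel₀ h0 (congrArg PG.a h)) (mul_left_cancel₀ h0 (congrArg PG.b h))
    (mul_left_cancel₀ h0 (congrArg PG.c h))

lemma dil_bd {m : ℕ} {T : ℤ} {v : PG} : Bd ((2 * m + 1) * T) (dil m v) ↔ Bd T v := by
  have h0 : (0 : ℤ) < 2 * m + 1 := by positivity
  simp only [Bd, dil_a, dil_b, dil_c, ← mul_neg, mul_le_mul_iff_right₀ h0]

/-- the translation by `2 c` along the third axis -/
def tz (c : ℤ) : PG := ⟨0, 0, 2 * c, by omega⟩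

lemma tz_mul (c : ℤ) (s t : PG) : ∃ t' : PG, tz c * (s * t) = s * t' ∧ t'.a = t.a ∧ t'.b = t.b ∧
    t'.c = t.c + sg s.b * (2 * c) := by
  have e : sg (2 * c) = 1 := sg_even (by omega)
  refine ⟨⟨t.a, t.b, t.c + sg s.b * (2 * c), ?_⟩, ?_, rfl, rfl, rfl⟩
  · have := t.h
    rcases sg_cases s.b with ⟨_, e⟩ | ⟨_, e⟩ <;> rw [e] <;> omega
  · ext
    · simp [tz, e]
    · simp [tz, sg_zero]
    · simp only [tz, mul_c, sg_zero]
      linear_combination (-2 * c) * sg_sq s.b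

lemma tz_inv_mul (c d : ℤ) : (tz c)⁻¹ * tz d = tz (d - c) := by
  have e : sg (2 * c) = 1 := sg_even (by omega)
  rw [inv_mul_eq_iff_eq_mul]
  ext <;> simp [tz, e, sg_zero]
  ring

/-- the dilated set with `m` further points on a segment -/
@[irreducible] noncomputable def XX (m : ℕ) : Finset PG := sX.image (dil m) ∪ (Icc (1 : ℤ) m).image tz

/-- the dilated second set -/
@[irreducible] noncomputable def SS (m : ℕ) : Finset PG := sS.image (dil m)

lemma mem_SS {m : ℕ} {s : PG} : s ∈ SS m ↔ ∃ s' ∈ lS, dil m s' = s := by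
  simp only [SS, mem_image, mem_sS]

lemma mem_XX {m : ℕ} {x : PG} :
    x ∈ XX m ↔ (∃ y ∈ lX, dil m y = x) ∨ ∃ c : ℤ, (1 ≤ c ∧ c ≤ m) ∧ tz c = x := by
  simp only [XX, mem_union, mem_image, mem_sX, mem_Icc]

lemma XX_card (m : ℕ) : (XX m).card = 8 + m := by
  rw [XX, card_union_of_disjoint, card_image_of_injective _ (dil_inj m), sX_card,
    card_image_of_injective _ fun c d h => by have := congrArg PG.c h; simp only [tz] at this; omega]
  · simp
  · rw [disjoint_left]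
    intro z h1 h2
    obtain ⟨x, hx, rfl⟩ := mem_image.1 h1
    obtain ⟨c, hc, e⟩ := mem_image.1 h2
    have h := congrArg PG.c e
    rw [mem_Icc] at hc
    simp only [tz, dil_c] at h
    rcases le_or_gt x.c 0 with h' | h' <;> nlinarith

lemma XX_bd {m : ℕ} {x : PG} (hx : x ∈ XX m) : Bd ((2 * m + 1) * 2) x := by
  rcases mem_XX.1 hx with ⟨y, hy, rfl⟩ | ⟨c, hc, rfl⟩
  · exact dil_bd.2 (lX_bd y hy)
  · simp only [Bd, tz]
    omega

lemma dil_mem {m : ℕ} {x : PG} (hx : x ∈ lX) : dil m x ∈ XX m :=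
  mem_XX.2 (Or.inl ⟨x, hx, rfl⟩)

lemma tz_zero_mem (m : ℕ) : tz 0 ∈ XX m := by
  have := dil_mem (m := m) (x := ⟨0, 0, 0, by decide⟩) (by decide)
  convert this using 1
  ext <;> simp [tz, dil_a, dil_b, dil_c]

lemma tz_top_mem (m : ℕ) : tz (2 * m + 1) ∈ XX m := by
  have := dil_mem (m := m) (x := ⟨0, 0, 2, by decide⟩) (by decide)
  convert this using 1
  ext <;> simp [tz, dil_a, dil_b, dil_c, mul_comm]

lemma seg {X S : Finset PG} {L M c : ℤ} (hL : M * 2 ≤ L) (m0 : tz 0 ∈ X) (m1 : tz M ∈ X)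
    (c0 : 0 < c) (c1 : c < M) {s t : PG} (hs : s ∈ S) (ht : t ∈ box L) :
    ∃ x' ∈ X, x' ≠ tz c ∧ x'⁻¹ * (tz c * (s * t)) ∈ S * box L := by
  have key : ∀ d : ℤ, tz d ∈ X → d ≠ c → -L ≤ t.c + sg s.b * (2 * (c - d)) →
      t.c + sg s.b * (2 * (c - d)) ≤ L → ∃ x' ∈ X, x' ≠ tz c ∧
        x'⁻¹ * (tz c * (s * t)) ∈ S * box L := by
    intro d hd hne h1 h2
    refine ⟨tz d, hd, fun e => hne (by have := congrArg PG.c e; simp only [tz] at this; omega), ?_⟩
    obtain ⟨t', e, e1, e2, e3⟩ := tz_mul (c - d) s t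
    rw [← mul_assoc, tz_inv_mul, e]
    refine mul_mem_mul hs (mem_box.2 ?_)
    have := mem_box.1 ht
    simp only [Bd, e1, e2, e3] at this ⊢
    exact ⟨this.1, this.2.1, h1, h2⟩
  have hb := (mem_box.1 ht).2.2
  rcases sg_cases s.b with ⟨_, e⟩ | ⟨_, e⟩ <;> rw [e] at key <;> rcases le_total t.c 0 with h | h
  · exact key 0 m0 (by omega) (by omega) (by omega)
  · exact key _ m1 (by omega) (by omega) (by omega)
  · exact key _ m1 (by omega) (by omega) (by omega)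
  · exact key 0 m0 (by omega) (by omega) (by omega)

lemma XX_nup {m : ℕ} {L : ℤ} (hL : (2 * m + 1) * 2 ≤ L) : ∀ x ∈ XX m, ∀ w ∈ SS m * box L,
    ∃ x' ∈ XX m, x' ≠ x ∧ x'⁻¹ * (x * w) ∈ SS m * box L := by
  intro x hx w hw
  obtain ⟨s, hs, t, ht, e⟩ := mem_mul.1 hw
  rw [← e]
  rcases mem_XX.1 hx with ⟨y, hy, e1⟩ | ⟨c, hc, e1⟩
  · obtain ⟨s', hs', e2⟩ := mem_SS.1 hs
    obtain ⟨x', hx', hne, hmem⟩ := lX_nup y hy s' hs'
    refine ⟨dil m x', dil_mem hx', fun e => hne (dil_inj m (e.trans e1.symm)), ?_⟩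
    have := mul_mem_mul (mem_SS.2 ⟨_, hmem, rfl⟩ : _ ∈ SS m) ht
    rwa [map_mul, map_mul, map_inv, e1, e2, mul_assoc, mul_assoc] at this
  · rw [← e1]
    exact seg hL (tz_zero_mem m) (tz_top_mem m) (by omega) (by omega) hs ht

lemma XX_prog (m : ℕ) : ∀ a ∈ XX m, ∀ y ∈ XX m, a ≠ y → ∃ u ∈ XX m, ∃ v ∈ XX m, u ≠ v ∧
    (a * y⁻¹)⁻¹ * u ∉ XX m ∧ (a * y⁻¹)⁻¹ * v ∉ XX m := by
  intro a _ y _ hay
  refine two_exits torsionFree (p := dil m ⟨0, 0, 2, by decide⟩) (q := dil m ⟨1, -1, 0, by decide⟩)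
    ?_ (dil_mem (by decide)) (dil_mem (by decide)) (fun e => ?_)
    (fun e => hay (mul_inv_eq_one.1 (inv_eq_one.1 e)))
  · rw [← map_one (dil m)]
    exact dil_mem (by decide)
  · rw [← map_mul, ← map_mul] at e
    exact absurd (dil_inj m e) (by decide)

/-- a far translate of a set squeezed between two boxes sticks out a lot -/
lemma far_translate (W : Finset PG) (R : ℕ) {T : ℤ} (hR : T ≤ R)
    (h1 : box (4 * R) ⊆ W) (h2 : W ⊆ box (4 * R + T)) (g : PG) (hg : ¬ Bd (3 * R) g) :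
    (R + 1) ^ 3 ≤ ((W.image (fun w => g * w)) \ W).card := by
  have e : (cube (R : ℤ) (2 * R)).card = (R + 1) ^ 3 := by
    rw [card_cube]
    congr 1
    omega
  rw [← e]
  let s : ℤ → ℤ := fun x => if 0 ≤ x then 1 else -1
  let t : ℤ × ℤ × ℤ → PG := fun u =>
    ⟨2 * (sg g.c * s g.a * u.1), 2 * (sg g.a * s g.b * u.2.1), 2 * (sg g.b * s g.c * u.2.2),
      by omega⟩
  have ha : ∀ u, (g * t u).a = g.a + 2 * s g.a * u.1 := by
    intro u
    simp only [mul_a, t]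
    linear_combination (2 * s g.a * u.1) * sg_sq g.c
  have hb : ∀ u, (g * t u).b = g.b + 2 * s g.b * u.2.1 := by
    intro u
    simp only [mul_b, t]
    linear_combination (2 * s g.b * u.2.1) * sg_sq g.a
  have hc : ∀ u, (g * t u).c = g.c + 2 * s g.c * u.2.2 := by
    intro u
    simp only [mul_c, t]
    linear_combination (2 * s g.c * u.2.2) * sg_sq g.b
  have hs : ∀ x, (0 ≤ x ∧ s x = 1) ∨ (x < 0 ∧ s x = -1) := by
    intro x
    by_cases h : 0 ≤ x
    · left; simp [s, h]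
    · right; simp [s, h]; omega
  apply Finset.card_le_card_of_injOn (fun u => g * t u)
  · intro u hu
    rw [Finset.mem_coe, mem_cube] at hu
    simp only [Finset.coe_sdiff, Set.mem_sdiff, Finset.mem_coe]
    constructor
    · apply Finset.mem_image_of_mem
      apply h1
      rw [mem_box]
      simp only [Bd, t]
      rcases sg_cases g.a with ⟨_, e1⟩ | ⟨_, e1⟩ <;>
      rcases sg_cases g.b with ⟨_, e2⟩ | ⟨_, e2⟩ <;>
      rcases sg_cases g.c with ⟨_, e3⟩ | ⟨_, e3⟩ <;>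
      rcases hs g.a with ⟨_, f1⟩ | ⟨_, f1⟩ <;>
      rcases hs g.b with ⟨_, f2⟩ | ⟨_, f2⟩ <;>
      rcases hs g.c with ⟨_, f3⟩ | ⟨_, f3⟩ <;>
      rw [e1, e2, e3, f1, f2, f3] <;> omega
    · intro hW
      have := mem_box.1 (h2 hW)
      apply hg
      simp only [Bd, ha, hb, hc] at this ⊢
      rcases hs g.a with ⟨_, f1⟩ | ⟨_, f1⟩ <;>
      rcases hs g.b with ⟨_, f2⟩ | ⟨_, f2⟩ <;>
      rcases hs g.c with ⟨_, f3⟩ | ⟨_, f3⟩ <;>
      rw [f1, f2, f3] at this <;> omega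
  · intro u _ u' _ h
    have e1 := ha u
    have e2 := hb u
    have e3 := hc u
    simp only at h
    rw [h, ha] at e1
    rw [h, hb] at e2
    rw [h, hc] at e3
    rcases hs g.a with ⟨_, f1⟩ | ⟨_, f1⟩ <;>
    rcases hs g.b with ⟨_, f2⟩ | ⟨_, f2⟩ <;>
    rcases hs g.c with ⟨_, f3⟩ | ⟨_, f3⟩ <;>
    rw [f1] at e1 <;> rw [f2] at e2 <;> rw [f3] at e3 <;>
    exact Prod.ext (by omega) (Prod.ext (by omega) (by omega))

end Pool.Agent.Lib.MP_587a88_co.All
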