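import Pool.Agent.Lib.MP_587a88_co.All.Dil

/-! The counterexample for every size at least six. -/

set_option autoImplicit false
open Pointwise Finset

namespace Pool.Agent.Lib.MP_587a88_co.All

lemma num (m μ b R : ℕ) (hμ : μ = 2 * m + 1) (hb : b = 10 ^ 10 * μ ^ 3) (hR : R = 156 * μ * b ^ 3) :
    (2 * (4 * R) + 2 * (μ * 5) + 1) ^ 3 + (8 + m) * (8 + m) * b ^ 6 ≤ (2 * (4 * R) + 1) ^ 3 + b ^ 7 ∧
    (2 * (4 * R) + 2 * (μ * 5) + 1) ^ 3 + 2 * (8 + m) * b ^ 7 ≤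
      (2 * (4 * R) + 1) ^ 3 + (R + 1) ^ 3 + b ^ 7 := by
  have μ1 : 1 ≤ μ := by omega
  have b1 : 1 ≤ b := by rw [hb]; exact Nat.succ_le_of_lt (by positivity)
  have b3 : 1 ≤ b ^ 3 := Nat.one_le_pow _ _ b1
  have h0 : μ ≤ μ * b ^ 3 := Nat.le_mul_of_pos_right _ b3
  obtain ⟨A, hA⟩ : ∃ A, A = 2 * (4 * R) + 1 := ⟨_, rfl⟩
  have A1 : μ ≤ A := by rw [hA, hR, mul_assoc 156]; omega
  have A2 : A ≤ 1249 * (μ * b ^ 3) := by rw [hA, hR, mul_assoc 156]; omega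
  have e : 2 * (4 * R) + 2 * (μ * 5) + 1 = A + 10 * μ := by omega
  have d1 : (A + 10 * μ) ^ 3 ≤ A ^ 3 + 1330 * μ * A ^ 2 := by
    have p1 : μ * μ * A ≤ μ * A * A := by gcongr
    have p2 : μ * μ * μ ≤ μ * A * A := by gcongr
    nlinarith
  have d2 : 1330 * μ * A ^ 2 ≤ 3 * 10 ^ 9 * μ ^ 3 * b ^ 6 := by
    calc _ ≤ 1330 * μ * (1249 * (μ * b ^ 3)) ^ 2 := by gcongr
      _ = 1330 * 1249 ^ 2 * (μ ^ 3 * b ^ 6) := by ring
      _ ≤ 3 * 10 ^ 9 * (μ ^ 3 * b ^ 6) := Nat.mul_le_mul_right _ (by norm_num)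
      _ = _ := by ring
  have n1 : 8 + m ≤ 8 * μ := by omega
  have d3 : (8 + m) * (8 + m) * b ^ 6 ≤ 64 * μ ^ 3 * b ^ 6 := by
    calc _ ≤ (8 * μ) * (8 * μ) * b ^ 6 * 1 := by rw [mul_one]; gcongr
      _ ≤ (8 * μ) * (8 * μ) * b ^ 6 * μ := by gcongr
      _ = _ := by ring
  have d4 : b ^ 7 = 10 ^ 10 * μ ^ 3 * b ^ 6 := by rw [← hb]; ring
  have d5 : 2 * (8 + m) * b ^ 7 ≤ (R + 1) ^ 3 := by
    calc _ ≤ 2 * (8 * μ) * b ^ 7 * 1 * 1 * 1 := by simp only [mul_one]; gcongr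
      _ ≤ 2 * (8 * μ) * b ^ 7 * μ ^ 2 * b ^ 2 * 237276 := by
          gcongr
          · exact Nat.one_le_pow _ _ μ1
          · exact Nat.one_le_pow _ _ b1
          · norm_num
      _ = R ^ 3 := by rw [hR]; ring
      _ ≤ _ := by gcongr; omega
  rw [e, ← hA]
  rw [mul_assoc _ (μ ^ 3)] at d2 d3 d4
  omega

theorem core (m : ℕ) (X S0 : Finset PG) (hc : X.card ≤ 8 + m) (hc2 : 2 ≤ X.card)
    (hX0 : ∀ x ∈ X, Bd ((2 * m + 1) * 2) x) (hS : ∀ s ∈ S0, Bd ((2 * m + 1) * 3) s) (h1 : 1 ∈ S0)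
    (nup : ∀ L : ℤ, (2 * m + 1) * 2 ≤ L → ∀ x ∈ X, ∀ w ∈ S0 * box L,
      ∃ x' ∈ X, x' ≠ x ∧ x'⁻¹ * (x * w) ∈ S0 * box L)
    (prog : ∀ a ∈ X, ∀ y ∈ X, a ≠ y → ∃ u ∈ X, ∃ v ∈ X, u ≠ v ∧
      (a * y⁻¹)⁻¹ * u ∉ X ∧ (a * y⁻¹)⁻¹ * v ∉ X) :
    ∃ S : Finset PG, (1 : PG) ∈ S ∧ ∀ A : Finset PG, A.card + 1 = X.card →
      (X * S).card ≤ (A * S).card := by
  obtain ⟨μ, hμ⟩ : ∃ μ, μ = 2 * m + 1 := ⟨_, rfl⟩
  obtain ⟨b, hb⟩ : ∃ b, b = 10 ^ 10 * μ ^ 3 := ⟨_, rfl⟩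
  obtain ⟨R, hR⟩ : ∃ R, R = 156 * μ * b ^ 3 := ⟨_, rfl⟩
  obtain ⟨n7, n8⟩ := num m μ b R hμ hb hR
  have b1 : 1 ≤ b := by rw [hb, hμ]; exact Nat.succ_le_of_lt (by positivity)
  have hμ' : (μ : ℤ) = 2 * m + 1 := by exact_mod_cast hμ
  obtain ⟨B, hB⟩ : ∃ B : ℤ, B = μ * (150 * (b : ℤ) ^ 3) := ⟨_, rfl⟩
  have hR' : B + 6 * μ ≤ R := by
    have : (μ : ℤ) * 1 ≤ μ * (b : ℤ) ^ 3 := by
      gcongr; exact_mod_cast Nat.one_le_pow 3 _ b1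
    rw [hB, hR]; push_cast; linarith
  have B0 : 0 ≤ B := by rw [hB]; positivity
  obtain ⟨W, hW⟩ : ∃ W : Finset PG, W = S0 * box (4 * R) := ⟨_, rfl⟩
  obtain ⟨D, hD⟩ : ∃ D : Finset PG, D = (sD b).image (dil m) := ⟨_, rfl⟩
  have mD : ∀ {d}, d ∈ D ↔ ∃ d0 ∈ sD b, dil m d0 = d := by rw [hD]; exact mem_image
  have hW1 : box (4 * R) ⊆ W := by
    intro t ht
    have := mul_mem_mul h1 ht
    rwa [one_mul, ← hW] at this
  have hW2 : W ⊆ box (4 * R + μ * 3) := by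
    intro w hw
    obtain ⟨s, hs, t, ht, rfl⟩ := mem_mul.1 (hW ▸ hw)
    rw [mem_box] at *
    exact ((hS s hs).mul ht).mono (by omega)
  have hX : ∀ x ∈ X, Bd (μ * 2) x := fun x hx => hμ' ▸ hX0 x hx
  have hW3 : X * W ⊆ box (((4 * R : ℕ) : ℤ) + (μ * 5 : ℕ)) := by
    intro w hw
    obtain ⟨s, hs, t, ht, rfl⟩ := mem_mul.1 hw
    have ht' := hW2 ht
    rw [mem_box] at *
    exact ((hX s hs).mul ht').mono (by push_cast; omega)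
  have hDb : ∀ d ∈ D, Bd B d ∧ μ * 10 ≤ d.a := fun d hd => by
    obtain ⟨d0, hd0, rfl⟩ := mD.1 hd
    refine ⟨by rw [hB, hμ']; exact dil_bd.2 (sD_bd hd0).1, ?_⟩
    rw [dil_a, ← hμ']
    exact mul_le_mul_of_nonneg_left (sD_bd hd0).2 (by positivity)
  have cD : D.card = b ^ 7 := by rw [hD, card_image_of_injective _ (dil_inj m), card_sD]
  have c1 := card_le_card hW1
  have c3 := card_le_card hW3
  have c4 := card_box_add (4 * R) (μ * 5)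
  have c5 : (box ((4 * R : ℕ) : ℤ)).card = (box (4 * R)).card := by push_cast; rfl
  refine ⟨W \ (X⁻¹ * D), ?_, ?_⟩
  · refine mem_sdiff.2 ⟨hW1 (mem_box.2 ?_), ?_⟩
    · simp only [Bd, one_a, one_b, one_c]; omega
    · intro h
      obtain ⟨y, hy, d, hd, e⟩ := mem_holes.1 h
      have e' : y = d := by
        have : y * 1 = y * (y⁻¹ * d) := by rw [← e]
        simpa using this
      have h1 := (hDb d hd).2
      have h2 := hX y hy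
      rw [e'] at h2
      simp only [Bd] at h2
      omega
  · intro A hA
    apply abstract_main X W D (b ^ 6) ((R + 1) ^ 3)
    · exact hc2
    · rw [hW]; exact nup _ (by omega)
    · exact prog
    · intro a ha a' ha' y hy d hd
      apply hW1
      rw [mem_box]
      exact ((((hX a' ha').inv.mul (hX a ha)).mul (hX y hy).inv).mul (hDb d hd).1).mono (by omega)
    · intro d hd d' hd' y' hy' a' ha' a ha y hy e
      obtain ⟨d0, hd0, rfl⟩ := mD.1 hd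
      obtain ⟨d1, hd1, rfl⟩ := mD.1 hd'
      refine congrArg _ (sD_sep hd0 hd1 ((dil_bd (m := m)).1 ?_))
      rw [map_mul, map_inv, e]
      exact ((((hX y' hy').mul (hX a' ha').inv).mul (hX a ha)).mul (hX y hy).inv).mono (by omega)
    · intro g hg
      rcases (D.filter (fun d => g * d ∈ D)).eq_empty_or_nonempty with h | ⟨d, hd⟩
      · rw [h]; simp
      · obtain ⟨h1, h2⟩ := mem_filter.1 hd
        obtain ⟨d0, -, rfl⟩ := mD.1 h1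
        obtain ⟨d1, -, e⟩ := mD.1 h2
        have eg : g = dil m (d1 * d0⁻¹) := by rw [map_mul, map_inv, e]; simp
        refine le_trans (card_le_card (t := ((sD b).filter
          (fun d => d1 * d0⁻¹ * d ∈ sD b)).image (dil m)) fun z hz => ?_) (card_image_le.trans
          (sD_rep b _ fun e' => hg (by rw [eg, e', map_one])))
        obtain ⟨z1, z2⟩ := mem_filter.1 hz
        obtain ⟨z0, hz', rfl⟩ := mD.1 z1
        obtain ⟨z', hz'', e'⟩ := mD.1 z2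
        rw [eg, ← map_mul] at e'
        exact mem_image_of_mem _ (mem_filter.2 ⟨hz', dil_inj m e' ▸ hz''⟩)
    · intro g
      by_cases hg : Bd (3 * R) g
      · left
        intro y hy d hd
        apply hW1
        rw [mem_box]
        exact (hg.mul ((hX y hy).inv.mul (hDb d hd).1)).mono (by omega)
      · right
        exact far_translate W R (by omega) hW1 hW2 g hg
    · have : X.card * X.card * b ^ 6 ≤ (8 + m) * (8 + m) * b ^ 6 := by gcongr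
      rw [cD]; omega
    · have : 2 * X.card * b ^ 7 ≤ 2 * (8 + m) * b ^ 7 := by gcongr
      rw [cD]; omega
    · exact hA

def l7 : List PG :=
  [⟨0, 0, 0, by decide⟩, ⟨-2, -2, 2, by decide⟩, ⟨-2, -1, 1, by decide⟩,
   ⟨-1, -1, 2, by decide⟩, ⟨-1, 0, -1, by decide⟩, ⟨-1, 1, 0, by decide⟩,
   ⟨0, -1, -1, by decide⟩]

def lT : List PG :=
  [⟨-3, 1, -2, by decide⟩, ⟨-3, 2, -3, by decide⟩, ⟨-2, -1, -1, by decide⟩,
   ⟨-2, -1, 1, by decide⟩, ⟨-2, -1, 3, by decide⟩, ⟨-2, 0, -2, by decide⟩,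
   ⟨-2, 0, 0, by decide⟩, ⟨-2, 0, 2, by decide⟩, ⟨-2, 1, -1, by decide⟩,
   ⟨-2, 2, -2, by decide⟩, ⟨-2, 2, 0, by decide⟩, ⟨-1, -1, -2, by decide⟩,
   ⟨-1, -1, 2, by decide⟩, ⟨-1, 0, -3, by decide⟩, ⟨-1, 0, -1, by decide⟩,
   ⟨-1, 0, 1, by decide⟩, ⟨-1, 1, 2, by decide⟩, ⟨-1, 2, -3, by decide⟩,
   ⟨-1, 2, -1, by decide⟩, ⟨-1, 2, 1, by decide⟩, ⟨0, -1, -1, by decide⟩,
   ⟨0, -1, 1, by decide⟩, ⟨0, -1, 3, by decide⟩, ⟨0, 0, 0, by decide⟩,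
   ⟨0, 1, -3, by decide⟩, ⟨0, 1, -1, by decide⟩, ⟨0, 1, 3, by decide⟩,
   ⟨0, 2, -2, by decide⟩, ⟨0, 2, 0, by decide⟩, ⟨0, 3, -1, by decide⟩,
   ⟨0, 3, 1, by decide⟩, ⟨1, -2, -1, by decide⟩, ⟨1, -2, 1, by decide⟩,
   ⟨1, -1, 0, by decide⟩, ⟨1, -1, 2, by decide⟩, ⟨1, 0, -1, by decide⟩,
   ⟨1, 0, 3, by decide⟩, ⟨1, 1, 2, by decide⟩, ⟨1, 2, -1, by decide⟩,
   ⟨1, 2, 1, by decide⟩, ⟨1, 3, 0, by decide⟩, ⟨1, 3, 2, by decide⟩,
   ⟨2, -2, -2, by decide⟩, ⟨2, -2, 0, by decide⟩, ⟨2, -1, -1, by decide⟩,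
   ⟨2, -1, 1, by decide⟩, ⟨2, 0, -2, by decide⟩, ⟨2, 0, 0, by decide⟩,
   ⟨2, 1, -1, by decide⟩, ⟨2, 1, 1, by decide⟩, ⟨3, 0, 1, by decide⟩,
   ⟨3, 1, 2, by decide⟩]

lemma l7_card : l7.toFinset.card = 7 := by decide +kernel
lemma l7_nup : ∀ x ∈ l7, ∀ s ∈ lT, ∃ x' ∈ l7, x' ≠ x ∧ x'⁻¹ * (x * s) ∈ lT := by decide +kernel
lemma l7_bd : ∀ x ∈ l7, Bd 2 x := by decide +kernel
lemma lT_bd : ∀ x ∈ lT, Bd 3 x := by decide +kernel
lemma lT_one : (1 : PG) ∈ lT := by decide +kernel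

lemma six : ∃ X S : Finset PG, X.card = 7 ∧ (1 : PG) ∈ S ∧ ∀ A : Finset PG, A.card + 1 = X.card →
    (X * S).card ≤ (A * S).card := by
  obtain ⟨X, hX⟩ : ∃ X, X = l7.toFinset := ⟨_, rfl⟩
  obtain ⟨T, hT⟩ : ∃ T, T = lT.toFinset := ⟨_, rfl⟩
  have mX : ∀ {x}, x ∈ X ↔ x ∈ l7 := by rw [hX]; exact List.mem_toFinset
  have mT : ∀ {x}, x ∈ T ↔ x ∈ lT := by rw [hT]; exact List.mem_toFinset
  have cX : X.card = 7 := by rw [hX, l7_card]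
  obtain ⟨S, h⟩ := core 0 X T (by omega) (by omega)
    (fun x hx => (l7_bd x (mX.1 hx)).mono (by omega))
    (fun x hx => (lT_bd x (mT.1 hx)).mono (by omega)) (mT.2 lT_one)
    (fun L _ x hx w hw => by
      obtain ⟨s, hs, t, ht, rfl⟩ := mem_mul.1 hw
      obtain ⟨x', hx', hne, hmem⟩ := l7_nup x (mX.1 hx) s (mT.1 hs)
      refine ⟨x', mX.2 hx', hne, ?_⟩
      have := mul_mem_mul (mT.2 hmem) ht
      rwa [mul_assoc, mul_assoc] at this)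
    (fun a _ y _ hay => two_exits torsionFree (p := ⟨-2, -2, 2, by decide⟩)
      (q := ⟨-2, -1, 1, by decide⟩) (mX.2 (by decide)) (mX.2 (by decide)) (mX.2 (by decide))
      (by decide) (fun e => hay (mul_inv_eq_one.1 (inv_eq_one.1 e))))
  exact ⟨X, S, cX, h⟩

theorem exists_set (k : ℕ) (hk : 6 ≤ k) : ∃ X S : Finset PG, X.card = k + 1 ∧ (1 : PG) ∈ S ∧
    ∀ A : Finset PG, A.card + 1 = X.card → (X * S).card ≤ (A * S).card := by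
  rcases hk.eq_or_lt with rfl | h
  · exact six
  obtain ⟨m, rfl⟩ := Nat.exists_eq_add_of_le (show 7 ≤ k from h)
  obtain ⟨S, h⟩ := core m (XX m) (SS m) (XX_card m).le (by rw [XX_card]; omega)
    (fun _ => XX_bd) (fun s hs => by
      obtain ⟨s', hs', rfl⟩ := mem_SS.1 hs
      exact dil_bd.2 (lS_bd s' hs')) (mem_SS.2 ⟨_, lS_one, map_one _⟩) (fun _ => XX_nup) (XX_prog m)
  exact ⟨XX m, S, by rw [XX_card]; omega, h⟩

end Pool.Agent.Lib.MP_587a88_co.All
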